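import Pool.Agent.H24.FD.P1

/-!
# MP_1f2761, k = 2: row EQB (basic properties of the expectation)
-/

set_option autoImplicit false

open Finset

namespace Pool.Agent.H24.FD

namespace Eqb63

/-- Summation over quotient and remainder. -/
theorem sum_block (a b : ℕ) (F : ℕ → ℝ) :
    ∑ i ∈ range a, ∑ j ∈ range b, F (b * i + j) = ∑ z ∈ range (b * a), F z := by
  induction a with
  | zero => simp
  | succ a ih =>
    rw [sum_range_succ, ih, Nat.mul_succ, sum_range_add]

variable {q l k : ℕ} {ε : ℝ} {om : ℕ → ℕ × ℕ → ℝ}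

theorem EQ_succ (J n : ℕ) (f : ℕ × ℕ → ℝ) (x : ℕ × ℕ) :
    EQ q l k ε om J (n + 1) f x = ∑ S : Fin k → Fin l → Fin 3,
      piQ q l k ε om J x S * EQ q l k ε om (J - l * k) n f (app x S) := rfl

theorem EQ_zero (J : ℕ) (f : ℕ × ℕ → ℝ) (x : ℕ × ℕ) : EQ q l k ε om J 0 f x = f x := rfl

/-- The average of a function of the `N` bits of a block. -/
theorem sum_fun (hV : VALSStmt) (hP : PIMStmt) (hM : Marg ε l) (J : ℕ) (x : ℕ × ℕ) (h : ℕ → ℝ) :
    ∑ S : Fin k → Fin l → Fin 3, piQ q l k ε om J x S * h (VN S) =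
      ∑ η ∈ range (2 ^ (l * k)), h η * (1 / 2 ^ (l * k)) := by
  classical
  have h1 : ∀ η ∈ range (2 ^ (l * k)), h η * (1 / 2 ^ (l * k)) =
      ∑ S : Fin k → Fin l → Fin 3, (if VN S = η then piQ q l k ε om J x S * h (VN S) else 0) := by
    intro η hη
    have h2 := hP q l k ε om hM J x η (mem_range.mp hη)
    rw [← h2, mul_sum]
    refine sum_congr rfl fun S _ => ?_
    by_cases hS : VN S = η
    · simp [hS, mul_comm]
    · simp [hS]
  rw [sum_congr rfl h1, sum_comm]
  refine sum_congr rfl fun S _ => ?_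
  rw [sum_ite_eq, if_pos]
  exact mem_range.mpr (hV l k S).1

end Eqb63

open Eqb63 in
/-- EQB. -/
theorem eqb (hV : VALSStmt) (hP : PIMStmt) (hN : PINStmt) : EQBStmt := by
  intro q l k ε om hM hom
  have h2p : (2 : ℝ) ^ (l * k) ≠ 0 := pow_ne_zero _ (by norm_num)
  have hone : ∀ (J : ℕ) (x : ℕ × ℕ), ∑ S : Fin k → Fin l → Fin 3, piQ q l k ε om J x S = 1 := by
    intro J x
    have h1 := sum_fun (q := q) (k := k) (om := om) hV hP hM J x (fun _ => 1)
    simp only [mul_one] at h1
    rw [h1, sum_const, card_range, nsmul_eq_mul]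
    push_cast
    field_simp
  refine ⟨?_, ?_, ?_, ?_, ?_⟩
  · intro n
    induction n with
    | zero => intro J c x; rfl
    | succ n ih =>
      intro J c x
      rw [EQ_succ]
      simp only [ih]
      rw [← sum_mul, hone, one_mul]
  · intro n
    induction n with
    | zero => intro J f g x h; exact h x
    | succ n ih =>
      intro J f g x h
      rw [EQ_succ, EQ_succ]
      exact sum_le_sum fun S _ => mul_le_mul_of_nonneg_left (ih _ _ _ _ h)
        (hN q l k ε om hom J x S)
  · intro n
    induction n with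
    | zero => intro J f g c x; rfl
    | succ n ih =>
      intro J f g c x
      rw [EQ_succ, EQ_succ, EQ_succ, mul_sum, ← sum_add_distrib]
      refine sum_congr rfl fun S _ => ?_
      rw [ih]
      ring
  · intro m
    induction m with
    | zero =>
      intro n J f x
      rw [EQ_zero, Nat.zero_add, Nat.mul_zero, Nat.sub_zero]
    | succ m ih =>
      intro n J f x
      rw [show m + 1 + n = (m + n) + 1 by omega, EQ_succ, EQ_succ]
      refine sum_congr rfl fun S _ => ?_
      rw [ih]
      have h1 : J - l * k - l * k * m = J - l * k * (m + 1) := by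
        rw [Nat.sub_sub, Nat.mul_succ, Nat.add_comm]
      rw [h1]
  · intro n
    induction n with
    | zero =>
      intro J g x
      rw [EQ_zero]
      simp
    | succ n ih =>
      intro J g x
      rw [EQ_succ]
      simp only [ih]
      have h1 := sum_fun (q := q) (k := k) (om := om) hV hP hM J x
        (fun v => (∑ η ∈ range (2 ^ (l * k * n)),
          g (2 ^ (l * k * n) * (2 ^ (l * k) * x.1 + v) + η)) / 2 ^ (l * k * n))
      have h2 : ∀ S : Fin k → Fin l → Fin 3, (app x S).1 = 2 ^ (l * k) * x.1 + VN S :=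
        fun S => rfl
      simp only [h2]
      rw [h1, ← sum_mul, ← sum_div]
      have h3 : ∀ v ∈ range (2 ^ (l * k)), ∑ η ∈ range (2 ^ (l * k * n)),
          g (2 ^ (l * k * n) * (2 ^ (l * k) * x.1 + v) + η) =
          ∑ η ∈ range (2 ^ (l * k * n)),
            (fun z => g (2 ^ (l * k * (n + 1)) * x.1 + z)) (2 ^ (l * k * n) * v + η) := by
        intro v _
        refine sum_congr rfl fun η _ => ?_
        show g _ = g _
        congr 1
        rw [Nat.mul_succ (l * k) n, pow_add]
        ring
      rw [sum_congr rfl h3, sum_block (2 ^ (l * k)) (2 ^ (l * k * n))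
        (fun z => g (2 ^ (l * k * (n + 1)) * x.1 + z))]
      have h4 : 2 ^ (l * k * n) * 2 ^ (l * k) = 2 ^ (l * k * (n + 1)) := by
        rw [← pow_add]
        rfl
      have h5 : (2 : ℝ) ^ (l * k * (n + 1)) = 2 ^ (l * k * n) * 2 ^ (l * k) := by
        rw [← pow_add]
        rfl
      rw [h4, h5]
      field_simp

end Pool.Agent.H24.FD
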