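import Pool.Agent.H63.FD.Sq

/-!
# MP_1f2761, k = 2: row F1B, bad cells
-/

set_option autoImplicit false

open Finset MeasureTheory

namespace Pool.FD

open Fb63 in
theorem f1b : F1BStmt := by
  classical
  intro g w T om H k y del hT hg hdel hH hom hrow hk0 hk1 B hB hbad
  have hT' : (0 : ℝ) < T := by exact_mod_cast hT
  have hw : (0 : ℝ) < 2 ^ w := by positivity
  have hmu := mu_ge hg
  have hmu1 : 1 - mu g = 2 / 2 ^ g := by unfold mu; ring
  have hc := count (g := g) (T := T) (w := w) (by omega) hT H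
    (fun e V u => 16 * (Aw g w (k e) T om y V u - mu g) ^ 2) (fun _ _ _ => 1) (fun e => y * e)
    (fun e V => BM.cmul _ (sq_bm g w (k e) hT om y V)) (fun _ _ => BM.const 1)
    (fun e V u => by positivity) (fun _ _ _ => zero_le_one) del B hB (by
      intro s hs u₁ hu₁ u₂ hu₂
      obtain ⟨x1, x2, h1, h2, h3⟩ := hbad s hs
      refine h3.le.trans ?_
      apply div_le_div_of_nonneg_right _ hw.le
      refine sum_le_sum fun e he => ?_
      unfold s2 st
      split_ifs with hz hm hm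
      · have h4 := Aw_le_Zf (w := w) hT hom (hk0 e) y e h1 h2 hu₁ hu₂ hm
        nlinarith
      · exact le_rfl
      · positivity
      · exact zero_le_one)
  refine hc.trans ?_
  have hsum : ∑ e ∈ H, ∑ V ∈ range T,
      (mu g * (∫ u in (0 : ℝ)..T, 16 * (Aw g w (k e) T om y V u - mu g) ^ 2) +
        (1 - mu g) * ∫ _u in (0 : ℝ)..T, (1 : ℝ)) =
      16 * (T : ℝ) ^ 2 * (∑ e ∈ H, F1f g w (k e) T om y) + (H.card : ℝ) * (2 / 2 ^ g * T ^ 2) := by
    rw [mul_sum, ← nsmul_eq_mul, ← sum_const, ← sum_add_distrib]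
    refine sum_congr rfl fun e he => ?_
    rw [show 16 * (T : ℝ) ^ 2 * F1f g w (k e) T om y = 16 * ((T : ℝ) ^ 2 * F1f g w (k e) T om y) by
      ring, F1f_eq (by omega) hT om y hrow (hk1 e he), mul_sum]
    rw [sum_add_distrib]
    congr 1
    · refine sum_congr rfl fun V _ => ?_
      rw [intervalIntegral.integral_const_mul]
      unfold Dv
      ring
    · rw [sum_const, card_range, nsmul_eq_mul, intervalIntegral.integral_const, smul_eq_mul, hmu1]
      ring
  rw [hsum]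
  have hcard : (H.card : ℝ) ≤ 2 ^ w := by
    have h1 := card_le_card hH
    rw [card_range] at h1
    exact_mod_cast h1
  have h5 : (16 * (T : ℝ) ^ 2 * (∑ e ∈ H, F1f g w (k e) T om y) +
      (H.card : ℝ) * (2 / 2 ^ g * T ^ 2)) / 2 ^ w ≤
      T ^ 2 * (2 / 2 ^ g + 16 * ((∑ e ∈ H, F1f g w (k e) T om y) / 2 ^ w)) := by
    rw [div_le_iff₀ hw]
    have h6 : (T : ℝ) ^ 2 * (2 / 2 ^ g + 16 * ((∑ e ∈ H, F1f g w (k e) T om y) / 2 ^ w)) * 2 ^ w =
        16 * (T : ℝ) ^ 2 * (∑ e ∈ H, F1f g w (k e) T om y) + 2 ^ w * (2 / 2 ^ g * T ^ 2) := by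
      field_simp
      ring
    rw [h6]
    have h7 : (0 : ℝ) ≤ 2 / 2 ^ g * T ^ 2 := by positivity
    nlinarith
  calc (2 ^ g) ^ 2 * _ ≤ ((2 : ℝ) ^ g) ^ 2 *
        (T ^ 2 * (2 / 2 ^ g + 16 * ((∑ e ∈ H, F1f g w (k e) T om y) / 2 ^ w))) :=
      mul_le_mul_of_nonneg_left h5 (by positivity)
    _ = _ := by ring

end Pool.FD
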