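import Pool.Agent.H63.FD.Sq

/-!
# MP_1f2761, k = 2: row F1D, the mean deviation on the cells
-/

set_option autoImplicit false

open Finset MeasureTheory

namespace Pool.FD

namespace Fb63

/-- The error near the boundary. -/
noncomputable def Rw (g w : ℕ) (k : ℕ → ℝ) (T : ℕ) (om : ℕ → ℕ → ℝ) (y : ℝ) (V : ℕ) (u : ℝ) : ℝ :=
  ∑ x ∈ range (2 ^ w), k x * st g T (fun _ => 0) (n3 T (om V)) (u + y * x)

/-- The sum over all neighbours. -/
noncomputable def Sw (g w : ℕ) (k : ℕ → ℝ) (T : ℕ) (om : ℕ → ℕ → ℝ) (y : ℝ) (V : ℕ) (u : ℝ) : ℝ :=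
  ∑ x ∈ range (2 ^ w), k x * st g T (fun a => n3 T (fun V' => n3 T (om V') a) V)
    (fun a => n3 T (fun V' => n3 T (om V') a) V) (u + y * x)

theorem Rw_bm (g w : ℕ) (k : ℕ → ℝ) {T : ℕ} (hT : 0 < T) (om : ℕ → ℕ → ℝ) (y : ℝ) (V : ℕ) :
    BM (Rw g w k T om y V) := by
  unfold Rw
  exact BM.sum _ fun x _ => BM.cmul _ ((st_bm g hT _ _).shift _)

theorem Sw_bm (g w : ℕ) (k : ℕ → ℝ) {T : ℕ} (hT : 0 < T) (om : ℕ → ℕ → ℝ) (y : ℝ) (V : ℕ) :
    BM (Sw g w k T om y V) := by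
  unfold Sw
  exact BM.sum _ fun x _ => BM.cmul _ ((st_bm g hT _ _).shift _)

theorem Rw_nonneg {g w : ℕ} {k : ℕ → ℝ} (hk : ∀ x, 0 ≤ k x) {T : ℕ} {om : ℕ → ℕ → ℝ}
    (hom : ∀ a b, 0 ≤ om a b) (y : ℝ) (V : ℕ) (u : ℝ) : 0 ≤ Rw g w k T om y V u := by
  unfold Rw
  refine sum_nonneg fun x _ => mul_nonneg (hk x) ?_
  unfold st
  split_ifs
  · exact le_rfl
  · exact n3_nonneg (hom V) _

theorem Sw_nonneg {g w : ℕ} {k : ℕ → ℝ} (hk : ∀ x, 0 ≤ k x) {T : ℕ} {om : ℕ → ℕ → ℝ}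
    (hom : ∀ a b, 0 ≤ om a b) (y : ℝ) (V : ℕ) (u : ℝ) : 0 ≤ Sw g w k T om y V u := by
  unfold Sw
  refine sum_nonneg fun x _ => mul_nonneg (hk x) ?_
  unfold st
  split_ifs <;> exact n3_nonneg (fun V' => n3_nonneg (hom V') _) _

theorem Rw_int {g w : ℕ} (hg : 1 ≤ g) {k : ℕ → ℝ} {T : ℕ} (hT : 0 < T) (om : ℕ → ℕ → ℝ) (y : ℝ)
    (V : ℕ) (hV : ∑ a ∈ range T, om V a = T) (hk : ∑ x ∈ range (2 ^ w), k x = 1) :
    ∫ u in (0 : ℝ)..T, Rw g w k T om y V u = (1 - mu g) * (3 * T) := by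
  unfold Rw
  rw [intervalIntegral.integral_finsetSum
    (fun x _ => (BM.cmul _ ((st_bm g hT _ _).shift _)).ii _ _)]
  simp only [intervalIntegral.integral_const_mul, st_int hg hT]
  rw [← sum_mul, hk, one_mul]
  simp only [mul_zero, zero_add]
  rw [← mul_sum, n3_sum hT, hV]

theorem Sw_int {g w : ℕ} (hg : 1 ≤ g) {k : ℕ → ℝ} {T : ℕ} (hT : 0 < T) (om : ℕ → ℕ → ℝ) (y : ℝ)
    (V : ℕ) (hVT : V < T) (hV : ∀ V < T, ∑ a ∈ range T, om V a = T)
    (hk : ∑ x ∈ range (2 ^ w), k x = 1) :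
    ∫ u in (0 : ℝ)..T, Sw g w k T om y V u = 9 * T := by
  unfold Sw
  rw [intervalIntegral.integral_finsetSum
    (fun x _ => (BM.cmul _ ((st_bm g hT _ _).shift _)).ii _ _)]
  simp only [intervalIntegral.integral_const_mul, st_int hg hT]
  rw [← sum_mul, hk, one_mul]
  have h1 : ∀ a, mu g * n3 T (fun V' => n3 T (om V') a) V +
      (1 - mu g) * n3 T (fun V' => n3 T (om V') a) V =
      n3 T (om ((V + T - 1) % T)) a + n3 T (om V) a + n3 T (om ((V + 1) % T)) a := by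
    intro a
    rw [← add_mul, add_sub_cancel, one_mul]
    rfl
  simp only [h1]
  rw [sum_add_distrib, sum_add_distrib, n3_sum hT, n3_sum hT, n3_sum hT,
    hV _ (Nat.mod_lt _ hT), hV V hVT, hV _ (Nat.mod_lt _ hT)]
  ring

/-- The sum at a point of the cell is at most the smoothed row plus the error. -/
theorem Zf_le {g w T : ℕ} (hT : 0 < T) {om : ℕ → ℕ → ℝ} (hom : ∀ a b, 0 ≤ om a b)
    {k : ℕ → ℝ} (hk : ∀ x, 0 ≤ k x) (y : ℝ) {i j : ℕ} {x1 x2 u₁ u₂ : ℝ} (e : ℕ)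
    (h1 : ix (T * 2 ^ g) x1 = i) (h2 : ix (T * 2 ^ g) x2 = j)
    (hu₁ : u₁ ∈ Set.Ioo ((i : ℝ) / 2 ^ g) ((i + 1 : ℝ) / 2 ^ g))
    (hu₂ : u₂ ∈ Set.Ioo ((j : ℝ) / 2 ^ g) ((j + 1 : ℝ) / 2 ^ g)) (hm : mar g (u₁ + y * e)) :
    Zf w k T om y e x1 x2 ≤ Aw g w k T om y (fl T (u₁ + y * e)) u₂ +
      Rw g w k T om y (fl T (u₁ + y * e)) u₂ := by
  unfold Aw Zf Rw
  rw [← sum_add_distrib]
  refine sum_le_sum fun x _ => ?_
  rw [← mul_add]
  refine mul_le_mul_of_nonneg_left ?_ (hk x)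
  rw [cell_fl hT h1 hu₁ hm]
  unfold gm st
  split_ifs with h3
  · rw [cell_fl hT h2 hu₂ h3, add_zero]
  · rw [zero_add]
    exact cell_fl3 hT h2 hu₂ _ (hom _)

theorem Zf_le' {g w T : ℕ} (hT : 0 < T) {om : ℕ → ℕ → ℝ} (hom : ∀ a b, 0 ≤ om a b)
    {k : ℕ → ℝ} (hk : ∀ x, 0 ≤ k x) (y : ℝ) {i j : ℕ} {x1 x2 u₁ u₂ : ℝ} (e : ℕ)
    (h1 : ix (T * 2 ^ g) x1 = i) (h2 : ix (T * 2 ^ g) x2 = j)
    (hu₁ : u₁ ∈ Set.Ioo ((i : ℝ) / 2 ^ g) ((i + 1 : ℝ) / 2 ^ g))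
    (hu₂ : u₂ ∈ Set.Ioo ((j : ℝ) / 2 ^ g) ((j + 1 : ℝ) / 2 ^ g)) :
    Zf w k T om y e x1 x2 ≤ Sw g w k T om y (fl T (u₁ + y * e)) u₂ := by
  unfold Zf Sw
  refine sum_le_sum fun x _ => mul_le_mul_of_nonneg_left ?_ (hk x)
  have h3 := cell_fl3 hT h1 hu₁ (y * e) (φ := fun V' => om V' (fl T (T * x2 + y * x)))
    (fun V' => hom V' _)
  refine h3.trans ?_
  have h4 : ∀ V', om V' (fl T (T * x2 + y * x)) ≤ n3 T (om V') (fl T (u₂ + y * x)) :=
    fun V' => cell_fl3 hT h2 hu₂ _ (hom V')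
  have h5 : n3 T (fun V' => om V' (fl T (T * x2 + y * x))) (fl T (u₁ + y * e)) ≤
      n3 T (fun V' => n3 T (om V') (fl T (u₂ + y * x))) (fl T (u₁ + y * e)) :=
    add_le_add (add_le_add (h4 _) (h4 _)) (h4 _)
  refine h5.trans (le_of_eq ?_)
  unfold st
  split_ifs <;> rfl

theorem Zf_nonneg {w T : ℕ} {om : ℕ → ℕ → ℝ} (hom : ∀ a b, 0 ≤ om a b)
    {k : ℕ → ℝ} (hk : ∀ x, 0 ≤ k x) (y : ℝ) (e : ℕ) (x1 x2 : ℝ) :
    0 ≤ Zf w k T om y e x1 x2 := sum_nonneg fun _ _ => mul_nonneg (hk _) (hom _ _)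

theorem f1d_aux (g w T : ℕ) (om : ℕ → ℕ → ℝ) (H : Finset ℕ) (k : ℕ → ℕ → ℝ) (y del : ℝ)
    (hT : 0 < T) (hg : 3 ≤ g) (hH : H ⊆ range (2 ^ w)) (hom : ∀ a b, 0 ≤ om a b)
    (hrow : ∀ V < T, ∑ a ∈ range T, om V a = T) (hk0 : ∀ e x, 0 ≤ k e x)
    (hk1 : ∀ e ∈ H, ∑ x ∈ range (2 ^ w), k e x = 1) (B : Finset (ℕ × ℕ))
    (hB : B ⊆ range (T * 2 ^ g) ×ˢ range (T * 2 ^ g))
    (hbad : ∀ s ∈ B, ∃ x1 x2 : ℝ, ix (T * 2 ^ g) x1 = s.1 ∧ ix (T * 2 ^ g) x2 = s.2 ∧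
      del < (∑ e ∈ H, |Zf w (k e) T om y e x1 x2 - 1|) / 2 ^ w) (l : ℝ) (hl : 0 < l) :
    (B.card : ℝ) * del ≤ ((T : ℝ) * 2 ^ g) ^ 2 * (28 / 2 ^ g + (l / 2 *
      ((∑ e ∈ H, F1f g w (k e) T om y) / 2 ^ w) + 1 / (2 * l))) := by
  classical
  have hT' : (0 : ℝ) < T := by exact_mod_cast hT
  have hw : (0 : ℝ) < 2 ^ w := by positivity
  have hmu := mu_ge hg
  have hmu1 : 1 - mu g = 2 / 2 ^ g := by unfold mu; ring
  have hmu2 : 0 ≤ 1 - mu g := by rw [hmu1]; positivity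
  have hc := count (g := g) (T := T) (w := w) (by omega) hT H
    (fun e V u => (l / 2) * (Aw g w (k e) T om y V u - mu g) ^ 2 +
      (Rw g w (k e) T om y V u + (1 / (2 * l) + 2 / 2 ^ g)))
    (fun e V u => 1 + Sw g w (k e) T om y V u) (fun e => y * e)
    (fun e V => (BM.cmul _ (sq_bm g w (k e) hT om y V)).add
      ((Rw_bm g w (k e) hT om y V).add (BM.const _)))
    (fun e V => (BM.const 1).add (Sw_bm g w (k e) hT om y V))
    (fun e V u => by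
      have := Rw_nonneg (g := g) (w := w) (hk0 e) (T := T) hom y V u
      positivity)
    (fun e V u => by
      have := Sw_nonneg (g := g) (w := w) (hk0 e) (T := T) hom y V u
      positivity) del B hB (by
      intro s hs u₁ hu₁ u₂ hu₂
      obtain ⟨x1, x2, h1, h2, h3⟩ := hbad s hs
      refine h3.le.trans ?_
      apply div_le_div_of_nonneg_right _ hw.le
      refine sum_le_sum fun e he => ?_
      unfold s2
      by_cases hm : mar g (u₁ + y * e)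
      · unfold st
        rw [if_pos hm]
        have h4 := Aw_le_Zf (w := w) hT hom (hk0 e) y e h1 h2 hu₁ hu₂ hm
        have h5 := Zf_le (w := w) hT hom (hk0 e) y e h1 h2 hu₁ hu₂ hm
        have h6 : ∀ A : ℝ, |A - mu g| ≤ l / 2 * (A - mu g) ^ 2 + 1 / (2 * l) := by
          intro A
          rw [← sq_abs (A - mu g)]
          have h7 : l / 2 * |A - mu g| ^ 2 + 1 / (2 * l) - |A - mu g| =
              (l * |A - mu g| - 1) ^ 2 / (2 * l) := by
            field_simp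
            ring
          have h8 : 0 ≤ (l * |A - mu g| - 1) ^ 2 / (2 * l) := by positivity
          linarith
        have h7 := h6 (Aw g w (k e) T om y (fl T (u₁ + y * e)) u₂)
        have h8 := le_abs_self (Aw g w (k e) T om y (fl T (u₁ + y * e)) u₂ - mu g)
        have h9 := neg_abs_le (Aw g w (k e) T om y (fl T (u₁ + y * e)) u₂ - mu g)
        have h10 := Rw_nonneg (g := g) (w := w) (hk0 e) (T := T) hom y (fl T (u₁ + y * e)) u₂
        rw [abs_le]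
        constructor <;> linarith
      · unfold st
        rw [if_neg hm]
        have h4 := Zf_le' (w := w) hT hom (hk0 e) y e h1 h2 hu₁ hu₂
        have h5 := Zf_nonneg (w := w) (T := T) hom (hk0 e) y e x1 x2
        rw [abs_le]
        constructor <;> linarith)
  refine hc.trans ?_
  have hcard : (H.card : ℝ) ≤ 2 ^ w := by
    have h1 := card_le_card hH
    rw [card_range] at h1
    exact_mod_cast h1
  have hsum : ∑ e ∈ H, ∑ V ∈ range T,
      (mu g * (∫ u in (0 : ℝ)..T, ((l / 2) * (Aw g w (k e) T om y V u - mu g) ^ 2 +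
      (Rw g w (k e) T om y V u + (1 / (2 * l) + 2 / 2 ^ g)))) +
        (1 - mu g) * ∫ u in (0 : ℝ)..T, (1 + Sw g w (k e) T om y V u)) ≤
      (T : ℝ) ^ 2 * (l / 2 * (∑ e ∈ H, F1f g w (k e) T om y)) +
        2 ^ w * ((T : ℝ) ^ 2 * (1 / (2 * l) + 28 / 2 ^ g)) := by
    have hpos : 0 ≤ (T : ℝ) ^ 2 * (1 / (2 * l) + 28 / 2 ^ g) := by positivity
    have h1 : ∀ e ∈ H, ∑ V ∈ range T,
      (mu g * (∫ u in (0 : ℝ)..T, ((l / 2) * (Aw g w (k e) T om y V u - mu g) ^ 2 +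
      (Rw g w (k e) T om y V u + (1 / (2 * l) + 2 / 2 ^ g)))) +
        (1 - mu g) * ∫ u in (0 : ℝ)..T, (1 + Sw g w (k e) T om y V u)) ≤
        (T : ℝ) ^ 2 * (l / 2 * F1f g w (k e) T om y) +
          (T : ℝ) ^ 2 * (1 / (2 * l) + 28 / 2 ^ g) := by
      intro e he
      have h2 : (T : ℝ) ^ 2 * (l / 2 * F1f g w (k e) T om y) =
          l / 2 * ((T : ℝ) ^ 2 * F1f g w (k e) T om y) := by ring
      rw [h2, F1f_eq (by omega) hT om y hrow (hk1 e he), mul_sum]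
      have h3 : (T : ℝ) ^ 2 * (1 / (2 * l) + 28 / 2 ^ g) =
          ∑ V ∈ range T, (T : ℝ) * (1 / (2 * l) + 28 / 2 ^ g) := by
        rw [sum_const, card_range, nsmul_eq_mul]
        ring
      rw [h3, ← sum_add_distrib]
      refine sum_le_sum fun V hV => ?_
      have hV' := mem_range.mp hV
      rw [intervalIntegral.integral_add ((BM.cmul _ (sq_bm g w (k e) hT om y V)).ii _ _)
          (((Rw_bm g w (k e) hT om y V).add (BM.const _)).ii _ _),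
        intervalIntegral.integral_add ((Rw_bm g w (k e) hT om y V).ii _ _)
          ((BM.const _).ii _ _), intervalIntegral.integral_const_mul,
        Rw_int (by omega) hT om y V (hrow V hV') (hk1 e he),
        intervalIntegral.integral_add ((BM.const _).ii _ _) ((Sw_bm g w (k e) hT om y V).ii _ _),
        Sw_int (by omega) hT om y V hV' hrow (hk1 e he), intervalIntegral.integral_const,
        intervalIntegral.integral_const, smul_eq_mul, smul_eq_mul]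
      have h4 : (∫ u in (0 : ℝ)..T, (Aw g w (k e) T om y V u - mu g) ^ 2) =
          Dv g w (k e) T om y V := rfl
      rw [h4, sub_zero]
      have h5 : (28 : ℝ) / 2 ^ g = 14 * (1 - mu g) := by rw [hmu1]; ring
      rw [h5, ← hmu1]
      have h6 : 0 ≤ 1 / (2 * l) := by positivity
      obtain ⟨z, hz⟩ : ∃ z, z = 1 / (2 * l) := ⟨_, rfl⟩
      rw [← hz] at h6 ⊢
      obtain ⟨m, hm⟩ : ∃ m, m = mu g := ⟨_, rfl⟩
      rw [← hm] at hmu2 hmu ⊢
      have h7 : 0 ≤ (1 - m) * T * z := by positivity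
      have h8 : 0 ≤ (1 - m) * T * (1 - m) := by positivity
      nlinarith
    refine (sum_le_sum h1).trans ?_
    rw [sum_add_distrib, ← mul_sum, ← mul_sum, sum_const, nsmul_eq_mul]
    have h4 := mul_le_mul_of_nonneg_right hcard hpos
    linarith
  calc (2 ^ g) ^ 2 * _ ≤ ((2 : ℝ) ^ g) ^ 2 *
        (((T : ℝ) ^ 2 * (l / 2 * (∑ e ∈ H, F1f g w (k e) T om y)) +
        2 ^ w * ((T : ℝ) ^ 2 * (1 / (2 * l) + 28 / 2 ^ g))) / 2 ^ w) :=
      mul_le_mul_of_nonneg_left (div_le_div_of_nonneg_right hsum hw.le) (by positivity)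
    _ = _ := by
      field_simp
      ring

end Fb63

open Fb63 in
theorem f1d : F1DStmt := by
  intro g w T om H k y del hT hg hdel hH hom hrow hk0 hk1 B hB hbad
  have hw : (0 : ℝ) < 2 ^ w := by positivity
  have haux := f1d_aux g w T om H k y del hT hg hH hom hrow hk0 hk1 B hB hbad
  have hP : 0 ≤ (∑ e ∈ H, F1f g w (k e) T om y) / 2 ^ w :=
    div_nonneg (sum_nonneg fun e he => F1f_nonneg hg hT om y hrow (hk1 e he)) hw.le
  obtain ⟨P, hPd⟩ : ∃ P, P = (∑ e ∈ H, F1f g w (k e) T om y) / 2 ^ w := ⟨_, rfl⟩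
  rw [← hPd] at haux hP ⊢
  have hg0 : (0 : ℝ) < 2 ^ g := by positivity
  rcases hP.eq_or_lt with h0 | h0
  · have h1 := haux (2 ^ g) hg0
    refine h1.trans (mul_le_mul_of_nonneg_left ?_ (by positivity))
    rw [← h0, Real.sqrt_zero, mul_zero, mul_zero, zero_add, add_zero]
    have h2 : (1 : ℝ) / (2 * 2 ^ g) = (1 / 2) / 2 ^ g := by field_simp
    rw [h2, ← add_div]
    apply div_le_div_of_nonneg_right _ hg0.le
    norm_num
  · have hs : 0 < Real.sqrt P := Real.sqrt_pos.mpr h0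
    have h1 := haux (1 / Real.sqrt P) (by positivity)
    refine h1.trans (mul_le_mul_of_nonneg_left ?_ (by positivity))
    have h2 : 1 / Real.sqrt P / 2 * P + 1 / (2 * (1 / Real.sqrt P)) = Real.sqrt P := by
      have h3 : P = Real.sqrt P * Real.sqrt P := (Real.mul_self_sqrt hP).symm
      have h4 : 1 / Real.sqrt P / 2 * P = Real.sqrt P / 2 := by
        nth_rewrite 2 [h3]
        field_simp
      rw [h4]
      field_simp
      ring
    rw [h2]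
    have h3 : (28 : ℝ) / 2 ^ g ≤ 30 / 2 ^ g := div_le_div_of_nonneg_right (by norm_num) hg0.le
    linarith

end Pool.FD
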