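import Pool.Agent.H24.FD.P5

/-!
# MP_1f2761, k = 2: row WNQ, a good window, base `q` levels
-/

set_option autoImplicit false

open Finset Pool.K2 Pool.FD MeasureTheory

namespace Pool.Agent.H24.FD

namespace Wnq63

theorem pF_nonneg (ε : ℝ) {l : ℕ} (s : Fin l → Fin 3) : 0 ≤ pF ε s := by
  unfold pF
  split_ifs <;> positivity

theorem atyp_nonneg (ε : ℝ) (l : ℕ) : 0 ≤ atyp ε l := by
  unfold atyp
  refine sum_nonneg fun s _ => ?_
  split_ifs
  · exact le_rfl
  · exact pF_nonneg ε s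

theorem Lo_nonneg (q m g t₁ l k : ℕ) (wm : ℕ → ℕ → ℝ) (J : ℕ) (s₁ s₂ : ℝ) :
    0 ≤ Lo q m g t₁ l k wm J s₁ s₂ := by
  unfold Lo
  refine div_nonneg (sum_nonneg fun e _ => ?_) (by positivity)
  split_ifs
  · exact zero_le_one
  · exact le_rfl

theorem Lo_le_one (q m g t₁ l k : ℕ) (wm : ℕ → ℕ → ℝ) (J : ℕ) (s₁ s₂ : ℝ) :
    Lo q m g t₁ l k wm J s₁ s₂ ≤ 1 := by
  classical
  unfold Lo
  rw [div_le_one (by positivity)]
  have h1 : (∑ e ∈ HH l k, if Zt q m g t₁ l k wm J e s₁ s₂ < 1 / 2 then (1 : ℝ) else 0) ≤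
      ∑ e ∈ HH l k, (1 : ℝ) := by
    refine sum_le_sum fun e _ => ?_
    split_ifs
    · exact le_rfl
    · exact zero_le_one
  refine h1.trans ?_
  rw [sum_const, nsmul_eq_mul, mul_one]
  have h2 : (HH l k).card ≤ 2 ^ (l * k) := by
    unfold HH
    refine (card_filter_le _ _).trans ?_
    rw [card_range]
  exact_mod_cast h2

end Wnq63

open Wnq63 in
theorem wnq (hLEVB : LEVBStmt) (hBCT : BCTStmt) (hTMB : TMBStmt) (hONQ : ONQStmt)
    (hLCE : LCEStmt) (hKLE : KLEStmt) (hCEL : CELStmt) (hEQB : EQBStmt) (hONN : ONNStmt) :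
    WNQStmt := by
  classical
  intro q m g t₁ l k T Jt wm xq εk del hPar h200 h3 hdel hJt hε0 hεx hx1 hV hWG hGF x
  have hq := hPar.hq
  have hom : ∀ J z, 0 ≤ omW q m g t₁ wm (l * k) 3200 Jt J z :=
    hONN q m g t₁ (l * k) 3200 Jt kk wm hq hPar.hg hPar.hmk
  obtain ⟨om, hom_def⟩ : ∃ om, om = omW q m g t₁ wm (l * k) 3200 Jt := ⟨_, rfl⟩
  obtain ⟨hc, hmono, hlin, -, -⟩ := hEQB q l k eb om hPar.marg (by rw [hom_def]; exact hom)
  rw [← hom_def] at hom
  have hL := hLEVB q l k (3200 + T) Jt q om hq hPar.marg hom hJt x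
  rw [← hom_def]
  refine hL.trans ?_
  -- every boundary of the window is far from zero
  have hroom : ∀ b, b < 3200 + T → l * k * (b + 1) ≤ Jt := fun b hb =>
    (Nat.mul_le_mul_left _ (by omega)).trans hJt
  have hsub : ∀ b, b < 3200 + T → l * k ≤ Jt - l * k * b := by
    intro b hb
    have h1 := hroom b hb
    rw [Nat.mul_add, Nat.mul_one] at h1
    omega
  have hnext : ∀ b, Jt - l * k * (b + 1) = Jt - l * k * b - l * k := by
    intro b
    rw [Nat.mul_add, Nat.mul_one]
    omega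
  have htm : ∀ b, b < 3200 + T → (tt q (l * k) (Jt - l * k * b) : ℝ) ≤ tm q (l * k) :=
    fun b hb => (hTMB q (l * k) _ hq (hsub b hb)).1
  have hbad : ∀ b, b < 3200 + T → ∀ y, (bad q (l * k) (Jt - l * k * (b + 1)) y : ℝ) ≤
      tm q (l * k) := by
    intro b hb y
    refine (hBCT q (l * k) (Jt - l * k * (b + 1)) y hq).trans ?_
    have h1 : Jt - l * k * (b + 1) + l * k = Jt - l * k * b := by
      rw [hnext]
      have := hsub b hb
      omega
    rw [h1]
    exact htm b hb
  rw [sum_range_add]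
  refine add_le_add ?_ ?_
  · have h1 : ∀ b ∈ range 3200, EQ q l k eb om Jt b (fun x' => EQ q l k eb om (Jt - l * k * b) 1
        (fun y => (bad q (l * k) (Jt - l * k * (b + 1)) y : ℝ)) x') x ≤ tm q (l * k) := by
      intro b hb
      have hb' : b < 3200 + T := by have := mem_range.mp hb; omega
      rw [← hc b Jt (tm q (l * k)) x]
      refine hmono _ _ _ _ _ fun x' => ?_
      rw [← hc 1 (Jt - l * k * b) (tm q (l * k)) x']
      exact hmono _ _ _ _ _ fun y => hbad b hb' y
    refine (sum_le_sum h1).trans ?_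
    rw [sum_const, card_range, nsmul_eq_mul]
    norm_num
  · have h1 : ∀ i ∈ range T, EQ q l k eb om Jt (3200 + i)
        (fun x' => EQ q l k eb om (Jt - l * k * (3200 + i)) 1
        (fun y => (bad q (l * k) (Jt - l * k * (3200 + i + 1)) y : ℝ)) x') x ≤
        t₁ + g + 2 * m + 2 + tm q (l * k) *
          ((1 - xq + εk) + (2 * q ^ 2 * εk + 2 * q ^ 2 / (q : ℝ) ^ g) + del +
            er q m t₁ l k T (rhoL q t₁ l del)) := by
      intro i hi
      obtain ⟨b, hbdef⟩ : ∃ b, b = 3200 + i := ⟨_, rfl⟩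
      rw [← hbdef]
      have hb0 : 3200 ≤ b := by omega
      have hb : b < 3200 + T := by have := mem_range.mp hi; omega
      obtain ⟨J, hJ⟩ : ∃ J, J = Jt - l * k * b := ⟨_, rfl⟩
      have hJw : l * k ≤ J := by rw [hJ]; exact hsub b hb
      have hJG : J + 3200 * (l * k) ≤ Jt := by
        have h2 : l * k * 3200 ≤ l * k * b := Nat.mul_le_mul_left _ hb0
        have h3 : l * k * b ≤ Jt := (Nat.mul_le_mul_left _ (by omega)).trans hJt
        rw [hJ]
        have h4 : 3200 * (l * k) = l * k * 3200 := Nat.mul_comm _ _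
        omega
      have hJn : Jt - l * k * (b + 1) = J - l * k := by rw [hnext, hJ]
      rw [hJn, ← hJ]
      obtain ⟨B, hBs, hBc, hBo⟩ := hLCE q m g t₁ l k J wm del hPar h3 hJw hdel
        (by rw [hJ]; exact hGF b hb0 hb)
      obtain ⟨hK1, hK2⟩ := hKLE q l k J hq hPar.hq5 h3 h200 hJw
      obtain ⟨f, hf⟩ : ∃ f : ℕ × ℕ → ℝ, ∀ y, f y =
        Lo q m g t₁ l k wm J (y.1 * yy q J) (y.2 * yy q J) + k * atyp eb l := ⟨_, fun _ => rfl⟩
      have hf0 : ∀ y, 0 ≤ f y := by
        intro y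
        rw [hf]
        have h2 := Lo_nonneg q m g t₁ l k wm J (y.1 * yy q J) (y.2 * yy q J)
        have h3 := atyp_nonneg eb l
        positivity
      have hE := hCEL q m g t₁ l k T Jt wm hPar h200 hJt hWG b hb0 hb
        (q ^ tt q (l * k) J * 2 ^ l) hK1 hK2 B hBs (rhoL q t₁ l del) hBc f del (by
          intro y
          rw [← hJ, hf]
          split_ifs with hy
          · have h2 := Lo_le_one q m g t₁ l k wm J (y.1 * yy q J) (y.2 * yy q J)
            linarith
          · have h2 := (hBo _ _ hy).1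
            linarith) x
      rw [← hom_def] at hE
      have hE0 : 0 ≤ EQ q l k eb om Jt b f x := by
        rw [← hc b Jt 0 x]
        exact hmono _ _ _ _ _ hf0
      have hN := hONQ q m g t₁ l k 3200 Jt J wm xq εk hPar hJw hJG hε0 hεx hx1 hV
      rw [← hom_def] at hN
      have hstep : EQ q l k eb om Jt b (fun x' => EQ q l k eb om J 1
          (fun y => (bad q (l * k) (J - l * k) y : ℝ)) x') x ≤
          EQ q l k eb om Jt b (fun x' => (tt q (l * k) J : ℝ) * f x' +
            (t₁ + g + 2 * m + 2 + (1 - xq + εk) * tt q (l * k) J +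
              (2 * q ^ 2 * εk + 2 * q ^ 2 / (q : ℝ) ^ g) * tt q (l * k) J)) x := by
        refine hmono _ _ _ _ _ fun x' => ?_
        refine (hN x').trans (le_of_eq ?_)
        rw [hf]
        ring
      refine hstep.trans ?_
      rw [hlin, hc]
      have ht := htm b hb
      rw [← hJ] at ht
      have ht0 : (0 : ℝ) ≤ tt q (l * k) J := Nat.cast_nonneg _
      have h5 : (tt q (l * k) J : ℝ) * EQ q l k eb om Jt b f x ≤
          tm q (l * k) * (del + er q m t₁ l k T (rhoL q t₁ l del)) :=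
        mul_le_mul ht hE hE0 (ht0.trans ht)
      have h6 : (1 - xq + εk) * tt q (l * k) J ≤ (1 - xq + εk) * tm q (l * k) :=
        mul_le_mul_of_nonneg_left ht (by linarith)
      have h7 : (2 * q ^ 2 * εk + 2 * q ^ 2 / (q : ℝ) ^ g) * tt q (l * k) J ≤
          (2 * q ^ 2 * εk + 2 * q ^ 2 / (q : ℝ) ^ g) * tm q (l * k) :=
        mul_le_mul_of_nonneg_left ht (by positivity)
      linarith
    refine (sum_le_sum h1).trans ?_
    rw [sum_const, card_range, nsmul_eq_mul]

end Pool.Agent.H24.FD
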