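import Pool.Agent.H84.FD.S

/-!
# MP_1f2761, k = 2: cells of side `2 ^ (-g)` and integrals of step functions
-/

set_option autoImplicit false

open Finset MeasureTheory

namespace Pool.FD

namespace Fb63

/-- Bounded and measurable. -/
def BM (f : ℝ → ℝ) : Prop := Measurable f ∧ ∃ C : ℝ, ∀ x, |f x| ≤ C

theorem BM.ii {f : ℝ → ℝ} (h : BM f) (a b : ℝ) : IntervalIntegrable f volume a b := by
  obtain ⟨hm, C, hC⟩ := h
  rw [intervalIntegrable_iff]
  refine Measure.integrableOn_of_bounded (M := C) ?_ hm.aestronglyMeasurable ?_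
  · rw [Set.uIoc, Real.volume_Ioc]
    exact ENNReal.ofReal_ne_top
  · exact Filter.Eventually.of_forall fun x => by rw [Real.norm_eq_abs]; exact hC x

theorem BM.const (c : ℝ) : BM (fun _ => c) := ⟨measurable_const, |c|, fun _ => le_rfl⟩

theorem BM.add {f g : ℝ → ℝ} (hf : BM f) (hg : BM g) : BM (fun x => f x + g x) := by
  obtain ⟨hf1, C, hC⟩ := hf
  obtain ⟨hg1, D, hD⟩ := hg
  exact ⟨hf1.add hg1, C + D, fun x => (abs_add_le _ _).trans (add_le_add (hC x) (hD x))⟩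

theorem BM.mul {f g : ℝ → ℝ} (hf : BM f) (hg : BM g) : BM (fun x => f x * g x) := by
  obtain ⟨hf1, C, hC⟩ := hf
  obtain ⟨hg1, D, hD⟩ := hg
  refine ⟨hf1.mul hg1, C * D, fun x => ?_⟩
  rw [abs_mul]
  exact mul_le_mul (hC x) (hD x) (abs_nonneg _) ((abs_nonneg _).trans (hC x))

theorem BM.cmul {f : ℝ → ℝ} (c : ℝ) (hf : BM f) : BM (fun x => c * f x) := (BM.const c).mul hf

theorem BM.sum {ι : Type} (s : Finset ι) {f : ι → ℝ → ℝ} (h : ∀ i ∈ s, BM (f i)) :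
    BM (fun x => ∑ i ∈ s, f i x) := by
  classical
  induction s using Finset.induction_on with
  | empty => simpa using BM.const 0
  | insert a s ha ih =>
    have h1 : BM (fun x => f a x + ∑ i ∈ s, f i x) :=
      (h a (mem_insert_self a s)).add (ih fun i hi => h i (mem_insert_of_mem hi))
    have h2 : (fun x => ∑ i ∈ insert a s, f i x) = fun x => f a x + ∑ i ∈ s, f i x := by
      funext x
      rw [sum_insert ha]
    rw [h2]
    exact h1

theorem BM.shift {f : ℝ → ℝ} (c : ℝ) (hf : BM f) : BM (fun x => f (x + c)) := by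
  obtain ⟨hf1, C, hC⟩ := hf
  exact ⟨hf1.comp (measurable_id.add_const c), C, fun x => hC _⟩

theorem fl_lt {T : ℕ} (hT : 0 < T) (x : ℝ) : fl T x < T := by
  have h1 : 0 ≤ ⌊x⌋ % (T : ℤ) := Int.emod_nonneg _ (by omega)
  have h2 : ⌊x⌋ % (T : ℤ) < T := Int.emod_lt_of_pos _ (by exact_mod_cast hT)
  unfold fl
  omega

theorem fl_meas (T : ℕ) : Measurable (fl T) :=
  (Measurable.of_discrete (f := fun z : ℤ => (z % (T : ℤ)).toNat)).comp Int.measurable_floor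

theorem mar_meas (g : ℕ) : MeasurableSet {u : ℝ | mar g u} := by
  have h1 : MeasurableSet {u : ℝ | 1 / 2 ^ g ≤ Int.fract u} :=
    measurableSet_le measurable_const measurable_fract
  have h2 : MeasurableSet {u : ℝ | Int.fract u ≤ 1 - 1 / 2 ^ g} :=
    measurableSet_le measurable_fract measurable_const
  exact h1.inter h2

open Classical in
/-- A step function. -/
noncomputable def st (g T : ℕ) (α β : ℕ → ℝ) (u : ℝ) : ℝ :=
  if mar g u then α (fl T u) else β (fl T u)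

theorem st_bm (g : ℕ) {T : ℕ} (hT : 0 < T) (α β : ℕ → ℝ) : BM (st g T α β) := by
  classical
  refine ⟨Measurable.ite (mar_meas g) ((Measurable.of_discrete (f := α)).comp (fl_meas T))
    ((Measurable.of_discrete (f := β)).comp (fl_meas T)),
    ∑ V ∈ range T, (|α V| + |β V|), fun x => ?_⟩
  have h1 : |α (fl T x)| + |β (fl T x)| ≤ ∑ V ∈ range T, (|α V| + |β V|) :=
    single_le_sum (f := fun V => |α V| + |β V|)
      (fun V _ => add_nonneg (abs_nonneg _) (abs_nonneg _)) (mem_range.mpr (fl_lt hT x))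
  have h2 := abs_nonneg (α (fl T x))
  have h3 := abs_nonneg (β (fl T x))
  unfold st
  split_ifs <;> linarith

/-- Integral of a function which is constant in the interior. -/
theorem int_const {f : ℝ → ℝ} {a b c : ℝ} (hab : a ≤ b) (h : ∀ x ∈ Set.Ioo a b, f x = c) :
    ∫ x in a..b, f x = (b - a) * c := by
  rw [intervalIntegral.integral_of_le hab, integral_Ioc_eq_integral_Ioo,
    setIntegral_congr_fun measurableSet_Ioo h, ← integral_Ioc_eq_integral_Ioo,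
    ← intervalIntegral.integral_of_le hab, intervalIntegral.integral_const, smul_eq_mul]

theorem st_unit {g T : ℕ} (hg : 1 ≤ g) (hT : 0 < T) (α β : ℕ → ℝ) {V : ℕ} (hV : V < T) :
    ∫ u in (V : ℝ)..(V + 1 : ℝ), st g T α β u = mu g * α V + (1 - mu g) * β V := by
  classical
  have hd0 : (0 : ℝ) < 1 / 2 ^ g := by positivity
  have hd1 : (1 : ℝ) / 2 ^ g ≤ 1 / 2 := by
    apply one_div_le_one_div_of_le (by norm_num)
    calc (2 : ℝ) = 2 ^ 1 := by norm_num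
      _ ≤ 2 ^ g := pow_le_pow_right₀ (by norm_num) hg
  obtain ⟨d, hd⟩ : ∃ d : ℝ, d = 1 / 2 ^ g := ⟨_, rfl⟩
  rw [← hd] at hd0 hd1
  have hii := fun a b => (st_bm g hT α β).ii a b
  have hfr : ∀ u : ℝ, (V : ℝ) < u → u < V + 1 → Int.fract u = u - V ∧ fl T u = V := by
    intro u h1 h2
    have h3 : ⌊u⌋ = (V : ℤ) := by
      rw [Int.floor_eq_iff]
      push_cast
      exact ⟨h1.le, h2⟩
    refine ⟨?_, ?_⟩
    · rw [Int.fract, h3]
      push_cast
      ring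
    · unfold fl
      rw [h3, Int.emod_eq_of_lt (by omega) (by exact_mod_cast hV)]
      rfl
  have e1 : ∫ u in (V : ℝ)..(V + d : ℝ), st g T α β u = (V + d - V) * β V := by
    apply int_const (by linarith)
    intro u hu
    obtain ⟨h1, h2⟩ := hfr u hu.1 (by linarith [hu.2])
    unfold st
    rw [if_neg, h2]
    rintro ⟨h3, -⟩
    rw [h1, ← hd] at h3
    linarith [hu.2]
  have e2 : ∫ u in (V + d : ℝ)..(V + 1 - d : ℝ), st g T α β u = (V + 1 - d - (V + d)) * α V := by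
    apply int_const (by linarith)
    intro u hu
    obtain ⟨h1, h2⟩ := hfr u (by linarith [hu.1]) (by linarith [hu.2])
    unfold st
    rw [if_pos, h2]
    refine ⟨?_, ?_⟩
    · rw [h1, ← hd]
      linarith [hu.1]
    · rw [h1, ← hd]
      linarith [hu.2]
  have e3 : ∫ u in (V + 1 - d : ℝ)..(V + 1 : ℝ), st g T α β u = (V + 1 - (V + 1 - d)) * β V := by
    apply int_const (by linarith)
    intro u hu
    obtain ⟨h1, h2⟩ := hfr u (by linarith [hu.1]) (by linarith [hu.2])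
    unfold st
    rw [if_neg, h2]
    rintro ⟨-, h3⟩
    rw [h1, ← hd] at h3
    linarith [hu.1]
  rw [← intervalIntegral.integral_add_adjacent_intervals (hii V (V + d)) (hii (V + d) (V + 1)),
    ← intervalIntegral.integral_add_adjacent_intervals (hii (V + d) (V + 1 - d))
      (hii (V + 1 - d) (V + 1)), e1, e2, e3]
  unfold mu
  have h2 : (2 : ℝ) / 2 ^ g = 2 * d := by rw [hd]; ring
  rw [h2]
  ring

theorem fl_add (T : ℕ) (x : ℝ) (m : ℤ) : fl T (x + T * m) = fl T x := by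
  have h1 : ⌊x + T * m⌋ = ⌊x⌋ + T * m := by
    have h2 : x + (T : ℝ) * m = x + ((T * m : ℤ) : ℝ) := by push_cast; ring
    rw [h2, Int.floor_add_intCast]
  unfold fl
  rw [h1, Int.add_mul_emod_self_left]

theorem mar_add (g T : ℕ) (x : ℝ) : mar g (x + T) ↔ mar g x := by
  unfold mar
  rw [Int.fract_add_natCast]

theorem st_per (g T : ℕ) (α β : ℕ → ℝ) : Function.Periodic (st g T α β) (T : ℝ) := by
  intro x
  have h1 : fl T (x + T) = fl T x := by
    have := fl_add T x 1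
    rwa [Int.cast_one, mul_one] at this
  unfold st
  by_cases h : mar g x
  · rw [if_pos h, if_pos ((mar_add g T x).mpr h), h1]
  · rw [if_neg h, if_neg (fun h' => h ((mar_add g T x).mp h')), h1]

/-- Integral over a period of a periodic function after a shift. -/
theorem int_shift {f : ℝ → ℝ} {T : ℝ} (hf : Function.Periodic f T) (c : ℝ) :
    ∫ u in (0 : ℝ)..T, f (u + c) = ∫ u in (0 : ℝ)..T, f u := by
  have h1 := hf.intervalIntegral_add_eq c 0
  have h2 := intervalIntegral.integral_comp_add_right (a := (0 : ℝ)) (b := T) f c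
  rw [h2, show (0 : ℝ) + c = c by ring, show T + c = c + T by ring, h1,
    show (0 : ℝ) + T = T by ring]

theorem st_int {g T : ℕ} (hg : 1 ≤ g) (hT : 0 < T) (α β : ℕ → ℝ) (c : ℝ) :
    ∫ u in (0 : ℝ)..T, st g T α β (u + c) =
      ∑ V ∈ range T, (mu g * α V + (1 - mu g) * β V) := by
  rw [int_shift (st_per g T α β)]
  have h1 := intervalIntegral.sum_integral_adjacent_intervals (f := st g T α β) (μ := volume)
    (a := fun k : ℕ => (k : ℝ)) (n := T) (fun k _ => (st_bm g hT α β).ii _ _)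
  rw [Nat.cast_zero] at h1
  rw [← h1]
  refine sum_congr rfl fun V hV => ?_
  have h2 := st_unit hg hT α β (mem_range.mp hV)
  rw [← h2]
  push_cast
  rfl

/-- Lower bounds on the cells. -/
theorem cells {F : ℝ → ℝ} (hF : BM F) (T g : ℕ) (c : ℕ → ℝ)
    (hc : ∀ i < T * 2 ^ g, ∀ u ∈ Set.Ioo ((i : ℝ) / 2 ^ g) ((i + 1 : ℝ) / 2 ^ g), c i ≤ F u) :
    ∑ i ∈ range (T * 2 ^ g), c i / 2 ^ g ≤ ∫ u in (0 : ℝ)..T, F u := by
  have hp : (0 : ℝ) < 2 ^ g := by positivity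
  have h1 := intervalIntegral.sum_integral_adjacent_intervals (f := F) (μ := volume)
    (a := fun k : ℕ => (k : ℝ) / 2 ^ g) (n := T * 2 ^ g) (fun k _ => hF.ii _ _)
  have h2 : ((T * 2 ^ g : ℕ) : ℝ) / 2 ^ g = T := by
    push_cast
    field_simp
  simp only [Nat.cast_zero, zero_div] at h1
  rw [h2] at h1
  rw [← h1]
  refine sum_le_sum fun i hi => ?_
  have hle : (i : ℝ) / 2 ^ g ≤ ((i + 1 : ℕ) : ℝ) / 2 ^ g := by
    apply div_le_div_of_nonneg_right _ hp.le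
    push_cast
    linarith
  have h3 := intervalIntegral.integral_mono_on_of_le_Ioo (f := fun _ => c i) (g := F) hle
    ((BM.const (c i)).ii _ _) (hF.ii _ _) (by
      intro u hu
      exact hc i (mem_range.mp hi) u ⟨hu.1, by have := hu.2; push_cast at this; exact this⟩)
  rw [intervalIntegral.integral_const, smul_eq_mul] at h3
  have h4 : (((i + 1 : ℕ) : ℝ) / 2 ^ g - (i : ℝ) / 2 ^ g) * c i = c i / 2 ^ g := by
    push_cast
    ring
  rw [h4] at h3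
  exact h3

/-! ### Neighbouring digits -/

theorem floor_near {g : ℕ} {z z' : ℝ} (hm : mar g z) (h : |z' - z| < 1 / 2 ^ g) :
    ⌊z'⌋ = ⌊z⌋ := by
  obtain ⟨h1, h2⟩ := hm
  rw [abs_lt] at h
  have h3 := Int.floor_add_fract z
  rw [Int.floor_eq_iff]
  constructor <;> linarith [h.1, h.2]

theorem fl_near {g T : ℕ} {z z' : ℝ} (hm : mar g z) (h : |z' - z| < 1 / 2 ^ g) :
    fl T z' = fl T z := by
  unfold fl
  rw [floor_near hm h]

/-- The sum over the neighbours. -/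
def n3 (T : ℕ) (φ : ℕ → ℝ) (a : ℕ) : ℝ := φ ((a + T - 1) % T) + φ a + φ ((a + 1) % T)

theorem n3_nonneg {T : ℕ} {φ : ℕ → ℝ} (h : ∀ a, 0 ≤ φ a) (a : ℕ) : 0 ≤ n3 T φ a :=
  add_nonneg (add_nonneg (h _) (h _)) (h _)

theorem fl_near3 {T : ℕ} (hT : 0 < T) {φ : ℕ → ℝ} (hφ : ∀ a, 0 ≤ φ a) {z z' : ℝ}
    (h : |z' - z| < 1) : φ (fl T z') ≤ n3 T φ (fl T z) := by
  rw [abs_lt] at h
  have h1 := Int.floor_le z
  have h2 := Int.lt_floor_add_one z
  have h3 := Int.floor_le z'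
  have h4 := Int.lt_floor_add_one z'
  have h5 : (⌊z⌋ : ℝ) < ⌊z'⌋ + 2 := by linarith [h.1, h.2]
  have h6 : (⌊z'⌋ : ℝ) < ⌊z⌋ + 2 := by linarith [h.1, h.2]
  have h5' : ⌊z⌋ < ⌊z'⌋ + 2 := by exact_mod_cast h5
  have h6' : ⌊z'⌋ < ⌊z⌋ + 2 := by exact_mod_cast h6
  have hT' : (0 : ℤ) < T := by exact_mod_cast hT
  have hlt := fl_lt hT z
  have hm : ((fl T z : ℕ) : ℤ) = ⌊z⌋ % (T : ℤ) := by
    unfold fl
    exact Int.toNat_of_nonneg (Int.emod_nonneg _ hT'.ne')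
  have hm' : ((fl T z' : ℕ) : ℤ) = ⌊z'⌋ % (T : ℤ) := by
    unfold fl
    exact Int.toNat_of_nonneg (Int.emod_nonneg _ hT'.ne')
  have hcase : ⌊z'⌋ = ⌊z⌋ - 1 ∨ ⌊z'⌋ = ⌊z⌋ ∨ ⌊z'⌋ = ⌊z⌋ + 1 := by omega
  unfold n3
  have p1 := hφ ((fl T z + T - 1) % T)
  have p2 := hφ (fl T z)
  have p3 := hφ ((fl T z + 1) % T)
  rcases hcase with hc | hc | hc
  · have h7 : fl T z' = (fl T z + T - 1) % T := by
      have h8 : ((fl T z' : ℕ) : ℤ) = (((fl T z + T - 1) % T : ℕ) : ℤ) := by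
        rw [hm', hc, Int.natCast_mod, Nat.cast_sub (by omega), Nat.cast_add, hm, Nat.cast_one]
        rw [show ⌊z⌋ % (T : ℤ) + T - 1 = ⌊z⌋ % (T : ℤ) - 1 + T by ring, Int.add_emod_right,
          Int.sub_emod (⌊z⌋ % (T : ℤ)), Int.emod_emod, ← Int.sub_emod]
      exact_mod_cast h8
    rw [h7]
    linarith
  · have h7 : fl T z' = fl T z := by
      unfold fl
      rw [hc]
    rw [h7]
    linarith
  · have h7 : fl T z' = (fl T z + 1) % T := by
      have h8 : ((fl T z' : ℕ) : ℤ) = (((fl T z + 1) % T : ℕ) : ℤ) := by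
        rw [hm', hc, Int.natCast_mod, Nat.cast_add, hm, Nat.cast_one, Int.emod_add_emod]
      exact_mod_cast h8
    rw [h7]
    linarith

theorem n3_sum {T : ℕ} (hT : 0 < T) (φ : ℕ → ℝ) :
    ∑ a ∈ range T, n3 T φ a = 3 * ∑ a ∈ range T, φ a := by
  obtain ⟨S, rfl⟩ : ∃ S, T = S + 1 := ⟨T - 1, by omega⟩
  unfold n3
  rw [sum_add_distrib, sum_add_distrib]
  have h1 : ∑ a ∈ range (S + 1), φ ((a + (S + 1) - 1) % (S + 1)) = ∑ a ∈ range (S + 1), φ a := by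
    rw [sum_range_succ', sum_range_succ]
    have h2 : (0 + (S + 1) - 1) % (S + 1) = S := by
      rw [show 0 + (S + 1) - 1 = S by omega, Nat.mod_eq_of_lt (by omega)]
    rw [h2]
    congr 1
    refine sum_congr rfl fun a ha => ?_
    have h3 : (a + 1 + (S + 1) - 1) % (S + 1) = a := by
      rw [show a + 1 + (S + 1) - 1 = a + (S + 1) by omega, Nat.add_mod_right,
        Nat.mod_eq_of_lt (by have := mem_range.mp ha; omega)]
    rw [h3]
  have h2 : ∑ a ∈ range (S + 1), φ ((a + 1) % (S + 1)) = ∑ a ∈ range (S + 1), φ a := by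
    rw [sum_range_succ, Nat.mod_self, sum_range_succ' φ]
    congr 1
    refine sum_congr rfl fun a ha => ?_
    rw [Nat.mod_eq_of_lt (by have := mem_range.mp ha; omega)]
  rw [h1, h2]
  ring

/-- A representative of a point in its cell. -/
theorem cell_rep {T g i : ℕ} (hT : 0 < T) {x : ℝ} (h : ix (T * 2 ^ g) x = i) :
    ∃ m : ℤ, (i : ℝ) / 2 ^ g ≤ T * x - T * m ∧ T * x - T * m < (i + 1 : ℝ) / 2 ^ g := by
  have hp : (0 : ℝ) < 2 ^ g := by positivity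
  have hK : (0 : ℤ) < ((T * 2 ^ g : ℕ) : ℤ) := by
    have : 0 < T * 2 ^ g := Nat.mul_pos hT (by positivity)
    exact_mod_cast this
  obtain ⟨K, hKd⟩ : ∃ K : ℤ, K = ((T * 2 ^ g : ℕ) : ℤ) := ⟨_, rfl⟩
  unfold ix fl at h
  rw [← hKd] at h hK
  obtain ⟨f, hf⟩ : ∃ f : ℤ, f = ⌊((T * 2 ^ g : ℕ) : ℝ) * x⌋ := ⟨_, rfl⟩
  rw [← hf] at h
  have h1 : f % K = i := by
    have h2 := Int.emod_nonneg f hK.ne'
    omega
  have h2 := Int.emod_add_mul_ediv f K
  rw [h1] at h2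
  have h3 : (f : ℝ) ≤ ((T * 2 ^ g : ℕ) : ℝ) * x := by rw [hf]; exact Int.floor_le _
  have h4 : ((T * 2 ^ g : ℕ) : ℝ) * x < f + 1 := by rw [hf]; exact Int.lt_floor_add_one _
  have h5 : (f : ℝ) = i + (T * 2 ^ g : ℝ) * (f / K : ℤ) := by
    have h6 : (f : ℝ) = ((i + K * (f / K) : ℤ) : ℝ) := by rw [h2]
    rw [h6, hKd]
    push_cast
    ring
  refine ⟨f / K, ?_, ?_⟩
  · rw [div_le_iff₀ hp]
    push_cast at h3 h4
    nlinarith
  · rw [lt_div_iff₀ hp]
    push_cast at h3 h4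
    nlinarith

/-- Comparison of a point with the points of its cell. -/
theorem cell_near {T g i : ℕ} (hT : 0 < T) {x u : ℝ} (h : ix (T * 2 ^ g) x = i)
    (hu : u ∈ Set.Ioo ((i : ℝ) / 2 ^ g) ((i + 1 : ℝ) / 2 ^ g)) (c : ℝ) :
    ∃ z : ℝ, fl T (T * x + c) = fl T z ∧ |z - (u + c)| < 1 / 2 ^ g := by
  obtain ⟨m, h1, h2⟩ := cell_rep hT h
  refine ⟨T * x - T * m + c, ?_, ?_⟩
  · have h3 := fl_add T (T * x - T * m + c) m
    rw [← h3]
    congr 1
    ring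
  · have h3 : ((i : ℝ) + 1) / 2 ^ g = i / 2 ^ g + 1 / 2 ^ g := by ring
    obtain ⟨hu1, hu2⟩ := hu
    rw [abs_lt]
    constructor <;> linarith

theorem cell_fl {T g i : ℕ} (hT : 0 < T) {x u : ℝ} (h : ix (T * 2 ^ g) x = i)
    (hu : u ∈ Set.Ioo ((i : ℝ) / 2 ^ g) ((i + 1 : ℝ) / 2 ^ g)) {c : ℝ} (hm : mar g (u + c)) :
    fl T (T * x + c) = fl T (u + c) := by
  obtain ⟨z, h1, h2⟩ := cell_near hT h hu c
  rw [h1]
  exact fl_near hm h2

theorem cell_fl3 {T g i : ℕ} (hT : 0 < T) {x u : ℝ} (h : ix (T * 2 ^ g) x = i)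
    (hu : u ∈ Set.Ioo ((i : ℝ) / 2 ^ g) ((i + 1 : ℝ) / 2 ^ g)) (c : ℝ) {φ : ℕ → ℝ}
    (hφ : ∀ a, 0 ≤ φ a) : φ (fl T (T * x + c)) ≤ n3 T φ (fl T (u + c)) := by
  obtain ⟨z, h1, h2⟩ := cell_near hT h hu c
  rw [h1]
  refine fl_near3 hT hφ (h2.trans_le ?_)
  rw [div_le_one (by positivity)]
  exact one_le_pow₀ (by norm_num)

/-! ### Two variables -/

open Classical in
/-- A step function of `u₁` whose values are functions of `u₂`. -/
noncomputable def s2 (g T : ℕ) (α β : ℕ → ℝ → ℝ) (c u₁ u₂ : ℝ) : ℝ :=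
  st g T (fun V => α V u₂) (fun V => β V u₂) (u₁ + c)

theorem s2_bm {g T : ℕ} {α β : ℕ → ℝ → ℝ} (hα : ∀ V, BM (α V)) (hβ : ∀ V, BM (β V))
    (c u₁ : ℝ) : BM (s2 g T α β c u₁) := by
  by_cases h : mar g (u₁ + c)
  · have : s2 g T α β c u₁ = α (fl T (u₁ + c)) := by
      funext u₂
      unfold s2 st
      rw [if_pos h]
    rw [this]
    exact hα _
  · have : s2 g T α β c u₁ = β (fl T (u₁ + c)) := by
      funext u₂
      unfold s2 st
      rw [if_neg h]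
    rw [this]
    exact hβ _

theorem s2_int {g T : ℕ} {α β : ℕ → ℝ → ℝ} (c u₁ : ℝ) :
    ∫ u₂ in (0 : ℝ)..T, s2 g T α β c u₁ u₂ =
      st g T (fun V => ∫ u₂ in (0 : ℝ)..T, α V u₂) (fun V => ∫ u₂ in (0 : ℝ)..T, β V u₂)
        (u₁ + c) := by
  by_cases h : mar g (u₁ + c)
  · unfold s2 st
    simp only [if_pos h]
  · unfold s2 st
    simp only [if_neg h]

/-- The number of cells on which the sum is large. -/
theorem count {g T w : ℕ} (hg : 1 ≤ g) (hT : 0 < T) (H : Finset ℕ)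
    (α β : ℕ → ℕ → ℝ → ℝ) (c : ℕ → ℝ) (hα : ∀ e V, BM (α e V)) (hβ : ∀ e V, BM (β e V))
    (hα0 : ∀ e V u, 0 ≤ α e V u) (hβ0 : ∀ e V u, 0 ≤ β e V u) (del : ℝ)
    (B : Finset (ℕ × ℕ)) (hB : B ⊆ range (T * 2 ^ g) ×ˢ range (T * 2 ^ g))
    (hd : ∀ s ∈ B, ∀ u₁ ∈ Set.Ioo ((s.1 : ℝ) / 2 ^ g) ((s.1 + 1 : ℝ) / 2 ^ g),
      ∀ u₂ ∈ Set.Ioo ((s.2 : ℝ) / 2 ^ g) ((s.2 + 1 : ℝ) / 2 ^ g),
      del ≤ (∑ e ∈ H, s2 g T (α e) (β e) (c e) u₁ u₂) / 2 ^ w) :
    (B.card : ℝ) * del ≤ (2 ^ g) ^ 2 * ((∑ e ∈ H, ∑ V ∈ range T,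
      (mu g * (∫ u in (0 : ℝ)..T, α e V u) + (1 - mu g) * ∫ u in (0 : ℝ)..T, β e V u)) / 2 ^ w) := by
  classical
  have hp : (0 : ℝ) < 2 ^ g := by positivity
  have hw : (0 : ℝ) < 2 ^ w := by positivity
  obtain ⟨F, hF⟩ : ∃ F : ℝ → ℝ → ℝ, ∀ u₁ u₂, F u₁ u₂ =
    (1 / 2 ^ w) * ∑ e ∈ H, s2 g T (α e) (β e) (c e) u₁ u₂ := ⟨_, fun _ _ => rfl⟩
  have hFbm : ∀ u₁, BM (F u₁) := by
    intro u₁
    have h1 : F u₁ = fun u₂ => (1 / 2 ^ w) * ∑ e ∈ H, s2 g T (α e) (β e) (c e) u₁ u₂ := by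
      funext u₂
      exact hF u₁ u₂
    rw [h1]
    exact BM.cmul _ (BM.sum H fun e _ => s2_bm (hα e) (hβ e) _ _)
  have hF0 : ∀ u₁ u₂, 0 ≤ F u₁ u₂ := by
    intro u₁ u₂
    rw [hF]
    refine mul_nonneg (by positivity) (sum_nonneg fun e _ => ?_)
    unfold s2 st
    split_ifs
    · exact hα0 _ _ _
    · exact hβ0 _ _ _
  obtain ⟨G, hG⟩ : ∃ G : ℝ → ℝ, ∀ u₁, G u₁ = (1 / 2 ^ w) * ∑ e ∈ H,
      st g T (fun V => ∫ u₂ in (0 : ℝ)..T, α e V u₂) (fun V => ∫ u₂ in (0 : ℝ)..T, β e V u₂)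
        (u₁ + c e) := ⟨_, fun _ => rfl⟩
  have hGbm : BM G := by
    have h1 : G = fun u₁ => (1 / 2 ^ w) * ∑ e ∈ H,
      st g T (fun V => ∫ u₂ in (0 : ℝ)..T, α e V u₂) (fun V => ∫ u₂ in (0 : ℝ)..T, β e V u₂)
        (u₁ + c e) := by
      funext u₁
      exact hG u₁
    rw [h1]
    exact BM.cmul _ (BM.sum H fun e _ => (st_bm g hT _ _).shift _)
  have hFG : ∀ u₁, ∫ u₂ in (0 : ℝ)..T, F u₁ u₂ = G u₁ := by
    intro u₁
    simp only [hF]
    rw [intervalIntegral.integral_const_mul, intervalIntegral.integral_finsetSum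
      (fun e _ => (s2_bm (hα e) (hβ e) _ _).ii _ _), hG]
    simp only [s2_int]
  have hin : ∀ i < T * 2 ^ g, ∀ u₁ ∈ Set.Ioo ((i : ℝ) / 2 ^ g) ((i + 1 : ℝ) / 2 ^ g),
      ∑ j ∈ range (T * 2 ^ g), (if (i, j) ∈ B then del else 0) / 2 ^ g ≤ G u₁ := by
    intro i _ u₁ hu₁
    rw [← hFG]
    refine cells (hFbm u₁) T g (fun j => if (i, j) ∈ B then del else 0) ?_
    intro j _ u₂ hu₂
    show (if (i, j) ∈ B then del else 0) ≤ _
    split_ifs with h
    · have h1 := hd (i, j) h u₁ hu₁ u₂ hu₂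
      rw [hF]
      calc del ≤ _ := h1
        _ = _ := by ring
    · exact hF0 _ _
  have hout := cells hGbm T g
    (fun i => ∑ j ∈ range (T * 2 ^ g), (if (i, j) ∈ B then del else 0) / 2 ^ g) hin
  have hGi : ∫ u in (0 : ℝ)..T, G u = (∑ e ∈ H, ∑ V ∈ range T,
      (mu g * (∫ u in (0 : ℝ)..T, α e V u) + (1 - mu g) * ∫ u in (0 : ℝ)..T, β e V u)) / 2 ^ w := by
    simp only [hG]
    rw [intervalIntegral.integral_const_mul, intervalIntegral.integral_finsetSum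
      (fun e _ => ((st_bm g hT _ _).shift _).ii _ _)]
    simp only [st_int hg hT]
    ring
  rw [hGi] at hout
  have hcard : ∑ i ∈ range (T * 2 ^ g),
      (∑ j ∈ range (T * 2 ^ g), (if (i, j) ∈ B then del else 0) / 2 ^ g) / 2 ^ g =
      (B.card : ℝ) * del / (2 ^ g) ^ 2 := by
    have h1 : ∑ i ∈ range (T * 2 ^ g),
      (∑ j ∈ range (T * 2 ^ g), (if (i, j) ∈ B then del else 0) / 2 ^ g) / 2 ^ g =
        (∑ s ∈ range (T * 2 ^ g) ×ˢ range (T * 2 ^ g), (if s ∈ B then del else 0)) /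
          (2 ^ g) ^ 2 := by
      rw [sum_product, sum_div]
      refine sum_congr rfl fun i _ => ?_
      rw [← sum_div]
      rw [div_div, pow_two]
    rw [h1]
    congr 1
    rw [← sum_filter, filter_mem_eq_inter, inter_eq_right.mpr hB, sum_const, nsmul_eq_mul]
  rw [hcard, div_le_iff₀ (by positivity)] at hout
  linarith

end Fb63

end Pool.FD
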