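import Pool.Agent.H63.FD.Cells

/-!
# MP_1f2761, k = 2: the square integral of the smoothed row
-/

set_option autoImplicit false

open Finset MeasureTheory

namespace Pool.FD

namespace Fb63

theorem gm_eq (g T : ℕ) (om : ℕ → ℕ → ℝ) (V : ℕ) :
    gm g T om V = st g T (fun a => om V a) (fun _ => 0) := by
  funext u
  rfl

theorem gm_bm (g : ℕ) {T : ℕ} (hT : 0 < T) (om : ℕ → ℕ → ℝ) (V : ℕ) : BM (gm g T om V) := by
  rw [gm_eq]
  exact st_bm g hT _ _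

theorem gm_int {g T : ℕ} (hg : 1 ≤ g) (hT : 0 < T) (om : ℕ → ℕ → ℝ) (V : ℕ)
    (hV : ∑ a ∈ range T, om V a = T) (c : ℝ) :
    ∫ u in (0 : ℝ)..T, gm g T om V (u + c) = mu g * T := by
  rw [gm_eq, st_int hg hT, ← hV, mul_sum]
  refine sum_congr rfl fun a _ => ?_
  ring

theorem gm_corr {g T : ℕ} (hT : 0 < T) (om : ℕ → ℕ → ℝ) (V : ℕ) (a b : ℝ) :
    ∫ u in (0 : ℝ)..T, gm g T om V (u + a) * gm g T om V (u + b) =
      T * CV g T om V (a - b) := by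
  have hT' : (0 : ℝ) < T := by exact_mod_cast hT
  obtain ⟨f, hf⟩ : ∃ f : ℝ → ℝ, ∀ u, f u = gm g T om V u * gm g T om V (u + (a - b)) :=
    ⟨_, fun _ => rfl⟩
  have hper : Function.Periodic f (T : ℝ) := by
    intro u
    have h1 := st_per g T (fun a => om V a) (fun _ => 0)
    rw [← gm_eq] at h1
    rw [hf, hf, h1 u, show u + (T : ℝ) + (a - b) = u + (a - b) + T by ring, h1 (u + (a - b))]
  have h2 := int_shift hper b
  have h3 : ∀ u, f (u + b) = gm g T om V (u + a) * gm g T om V (u + b) := by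
    intro u
    rw [hf, show u + b + (a - b) = u + a by ring, mul_comm]
  simp only [h3] at h2
  rw [h2]
  unfold CV
  simp only [hf]
  field_simp

/-- The smoothed row. -/
noncomputable def Aw (g w : ℕ) (k : ℕ → ℝ) (T : ℕ) (om : ℕ → ℕ → ℝ) (y : ℝ) (V : ℕ) (u : ℝ) : ℝ :=
  ∑ x ∈ range (2 ^ w), k x * gm g T om V (u + y * x)

theorem Aw_bm (g w : ℕ) (k : ℕ → ℝ) {T : ℕ} (hT : 0 < T) (om : ℕ → ℕ → ℝ) (y : ℝ) (V : ℕ) :
    BM (Aw g w k T om y V) := by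
  unfold Aw
  exact BM.sum _ fun x _ => BM.cmul _ ((gm_bm g hT om V).shift _)

theorem Aw_int {g w : ℕ} (hg : 1 ≤ g) {k : ℕ → ℝ} {T : ℕ} (hT : 0 < T) (om : ℕ → ℕ → ℝ) (y : ℝ)
    (V : ℕ) (hV : ∑ a ∈ range T, om V a = T) (hk : ∑ x ∈ range (2 ^ w), k x = 1) :
    ∫ u in (0 : ℝ)..T, Aw g w k T om y V u = mu g * T := by
  unfold Aw
  rw [intervalIntegral.integral_finsetSum
    (fun x _ => (BM.cmul _ ((gm_bm g hT om V).shift _)).ii _ _)]
  simp only [intervalIntegral.integral_const_mul, gm_int hg hT om V hV]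
  rw [← sum_mul, hk, one_mul]

theorem Aw_sq {g w : ℕ} {k : ℕ → ℝ} {T : ℕ} (hT : 0 < T) (om : ℕ → ℕ → ℝ) (y : ℝ)
    (V : ℕ) :
    ∫ u in (0 : ℝ)..T, Aw g w k T om y V u * Aw g w k T om y V u =
      T * ∑ x ∈ range (2 ^ w), ∑ x' ∈ range (2 ^ w), k x * k x' *
        CV g T om V (y * ((x : ℝ) - x')) := by
  have h1 : ∀ u, Aw g w k T om y V u * Aw g w k T om y V u =
      ∑ x ∈ range (2 ^ w), ∑ x' ∈ range (2 ^ w), k x * k x' *
        (gm g T om V (u + y * x) * gm g T om V (u + y * x')) := by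
    intro u
    unfold Aw
    rw [sum_mul_sum]
    refine sum_congr rfl fun x _ => sum_congr rfl fun x' _ => ?_
    ring
  simp only [h1]
  have hb : ∀ x x' : ℕ, BM (fun u => k x * k x' *
      (gm g T om V (u + y * x) * gm g T om V (u + y * x'))) := by
    intro x x'
    exact BM.cmul _ (((gm_bm g hT om V).shift _).mul ((gm_bm g hT om V).shift _))
  rw [intervalIntegral.integral_finsetSum (fun x _ => (BM.sum _ fun x' _ => hb x x').ii _ _),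
    mul_sum]
  refine sum_congr rfl fun x _ => ?_
  rw [intervalIntegral.integral_finsetSum (fun x' _ => (hb x x').ii _ _), mul_sum]
  refine sum_congr rfl fun x' _ => ?_
  rw [intervalIntegral.integral_const_mul, gm_corr hT, show y * (x : ℝ) - y * x' = y * (x - x') by
    ring]
  ring

/-- The deviation. -/
noncomputable def Dv (g w : ℕ) (k : ℕ → ℝ) (T : ℕ) (om : ℕ → ℕ → ℝ) (y : ℝ) (V : ℕ) : ℝ :=
  ∫ u in (0 : ℝ)..T, (Aw g w k T om y V u - mu g) ^ 2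

theorem sq_bm (g w : ℕ) (k : ℕ → ℝ) {T : ℕ} (hT : 0 < T) (om : ℕ → ℕ → ℝ) (y : ℝ) (V : ℕ) :
    BM (fun u => (Aw g w k T om y V u - mu g) ^ 2) := by
  have h1 : (fun u => (Aw g w k T om y V u - mu g) ^ 2) =
      fun u => (Aw g w k T om y V u + (-mu g)) * (Aw g w k T om y V u + (-mu g)) := by
    funext u
    ring
  rw [h1]
  exact ((Aw_bm g w k hT om y V).add (BM.const _)).mul ((Aw_bm g w k hT om y V).add (BM.const _))

theorem Dv_eq {g w : ℕ} (hg : 1 ≤ g) {k : ℕ → ℝ} {T : ℕ} (hT : 0 < T) (om : ℕ → ℕ → ℝ) (y : ℝ)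
    (V : ℕ) (hV : ∑ a ∈ range T, om V a = T) (hk : ∑ x ∈ range (2 ^ w), k x = 1) :
    Dv g w k T om y V = T * ((∑ x ∈ range (2 ^ w), ∑ x' ∈ range (2 ^ w), k x * k x' *
        CV g T om V (y * ((x : ℝ) - x'))) - mu g ^ 2) := by
  unfold Dv
  have h1 : ∀ u, (Aw g w k T om y V u - mu g) ^ 2 = (Aw g w k T om y V u * Aw g w k T om y V u +
      (-2 * mu g) * Aw g w k T om y V u) + mu g ^ 2 := by
    intro u
    ring
  simp only [h1]
  have hb := Aw_bm g w k hT om y V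
  rw [intervalIntegral.integral_add (((hb.mul hb).add (BM.cmul _ hb)).ii _ _)
      ((BM.const _).ii _ _),
    intervalIntegral.integral_add ((hb.mul hb).ii _ _) ((BM.cmul _ hb).ii _ _),
    intervalIntegral.integral_const_mul, Aw_sq hT, Aw_int hg hT om y V hV hk,
    intervalIntegral.integral_const, smul_eq_mul]
  ring

theorem F1f_eq {g w : ℕ} (hg : 1 ≤ g) {k : ℕ → ℝ} {T : ℕ} (hT : 0 < T) (om : ℕ → ℕ → ℝ) (y : ℝ)
    (hrow : ∀ V < T, ∑ a ∈ range T, om V a = T) (hk : ∑ x ∈ range (2 ^ w), k x = 1) :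
    (T : ℝ) ^ 2 * F1f g w k T om y = ∑ V ∈ range T, mu g * Dv g w k T om y V := by
  have hT' : (0 : ℝ) < T := by exact_mod_cast hT
  unfold F1f
  rw [← mul_assoc, mul_sum]
  refine sum_congr rfl fun V hV => ?_
  rw [Dv_eq hg hT om y V (hrow V (mem_range.mp hV)) hk]
  field_simp

theorem Dv_nonneg (g w : ℕ) (k : ℕ → ℝ) (T : ℕ) (om : ℕ → ℕ → ℝ) (y : ℝ) (V : ℕ) :
    0 ≤ Dv g w k T om y V :=
  intervalIntegral.integral_nonneg (Nat.cast_nonneg T) fun _ _ => sq_nonneg _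

theorem mu_ge {g : ℕ} (hg : 3 ≤ g) : 3 / 4 ≤ mu g := by
  unfold mu
  have h1 : (2 : ℝ) / 2 ^ g ≤ 1 / 4 := by
    rw [div_le_iff₀ (by positivity)]
    have h2 : (2 : ℝ) ^ 3 ≤ 2 ^ g := pow_le_pow_right₀ (by norm_num) hg
    linarith
  linarith

theorem F1f_nonneg {g w : ℕ} (hg : 3 ≤ g) {k : ℕ → ℝ} {T : ℕ} (hT : 0 < T) (om : ℕ → ℕ → ℝ)
    (y : ℝ) (hrow : ∀ V < T, ∑ a ∈ range T, om V a = T) (hk : ∑ x ∈ range (2 ^ w), k x = 1) :
    0 ≤ F1f g w k T om y := by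
  have hT' : (0 : ℝ) < T := by exact_mod_cast hT
  have h1 := F1f_eq (by omega) hT om y hrow hk (g := g)
  have h2 : 0 ≤ ∑ V ∈ range T, mu g * Dv g w k T om y V :=
    sum_nonneg fun V _ => mul_nonneg (by linarith [mu_ge hg]) (Dv_nonneg _ _ _ _ _ _ _)
  rw [← h1] at h2
  exact nonneg_of_mul_nonneg_right h2 (by positivity)

/-- The smoothed row is at most the sum at a point of the same cell. -/
theorem Aw_le_Zf {g w T : ℕ} (hT : 0 < T) {om : ℕ → ℕ → ℝ} (hom : ∀ a b, 0 ≤ om a b)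
    {k : ℕ → ℝ} (hk : ∀ x, 0 ≤ k x) (y : ℝ) {i j : ℕ} {x1 x2 u₁ u₂ : ℝ} (e : ℕ)
    (h1 : ix (T * 2 ^ g) x1 = i) (h2 : ix (T * 2 ^ g) x2 = j)
    (hu₁ : u₁ ∈ Set.Ioo ((i : ℝ) / 2 ^ g) ((i + 1 : ℝ) / 2 ^ g))
    (hu₂ : u₂ ∈ Set.Ioo ((j : ℝ) / 2 ^ g) ((j + 1 : ℝ) / 2 ^ g)) (hm : mar g (u₁ + y * e)) :
    Aw g w k T om y (fl T (u₁ + y * e)) u₂ ≤ Zf w k T om y e x1 x2 := by
  unfold Aw Zf
  refine sum_le_sum fun x _ => mul_le_mul_of_nonneg_left ?_ (hk x)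
  rw [cell_fl hT h1 hu₁ hm]
  unfold gm
  split_ifs with h3
  · rw [cell_fl hT h2 hu₂ h3]
  · exact hom _ _

end Fb63

end Pool.FD
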